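import Mathlib

set_option autoImplicit false

/-!
Perfect matchings of the complete graph on `{0, …, n-1}` and the degree sequences that realize
them.
-/

open Finset Classical

namespace Pool.Agent.X239.RZ

variable {n : ℕ}

/-- number of neighbours -/
noncomputable def dg (G : SimpleGraph (Fin n)) (v : Fin n) : ℕ := #{w | G.Adj v w}

lemma dg_eq (G : SimpleGraph (Fin n)) (v : Fin n) :
    dg G v = ∑ w, if G.Adj v w then 1 else 0 := by
  unfold dg
  rw [Finset.card_filter]

/-- The comparison of a tight graph with another graph with the same degrees. -/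
lemma compare (G G' : SimpleGraph (Fin n)) (k b : ℕ) (p q : Fin n → Fin n)
    (hdeg : ∀ v, dg G v = dg G' v)
    (h1 : ∀ a w : Fin n, a.val < k → w.val < b → w ≠ a → G.Adj a w)
    (h2 : ∀ β w : Fin n, b ≤ β.val → k ≤ w.val → G.Adj β w → w = p β)
    (h3 : ∀ v, G'.Adj v (q v)) :
    #{β : Fin n | b ≤ β.val ∧ k ≤ (q β).val} ≤ #{β : Fin n | b ≤ β.val ∧ k ≤ (p β).val} := by
  -- the three sums
  set al : SimpleGraph (Fin n) → ℕ := fun G => ∑ a : Fin n, ∑ w : Fin n,
    if a.val < k ∧ w.val < b ∧ G.Adj a w then 1 else 0 with hal
  set ga : SimpleGraph (Fin n) → ℕ := fun G => ∑ a : Fin n, ∑ w : Fin n,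
    if b ≤ a.val ∧ k ≤ w.val ∧ G.Adj a w then 1 else 0 with hga
  set ee : SimpleGraph (Fin n) → ℕ := fun G => ∑ a : Fin n, ∑ w : Fin n,
    if a.val < k ∧ b ≤ w.val ∧ G.Adj a w then 1 else 0 with hee
  have hA : ∀ G, ∑ a : Fin n, (if a.val < k then dg G a else 0) = al G + ee G := by
    intro G
    rw [hal, hee]
    simp only
    rw [← Finset.sum_add_distrib]
    refine Finset.sum_congr rfl fun a _ => ?_
    rw [← Finset.sum_add_distrib]
    split_ifs with h
    · rw [dg_eq]
      refine Finset.sum_congr rfl fun w _ => ?_
      by_cases hw : w.val < b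
      · have : ¬ b ≤ w.val := by omega
        simp [h, hw, this]
      · have : b ≤ w.val := by omega
        simp [h, hw, this]
    · symm
      refine Finset.sum_eq_zero fun w _ => ?_
      simp [h]
  have hB : ∀ G, ∑ a : Fin n, (if b ≤ a.val then dg G a else 0) = ga G + ee G := by
    intro G
    have e1 : ee G = ∑ a : Fin n, ∑ w : Fin n,
        if b ≤ a.val ∧ w.val < k ∧ G.Adj a w then 1 else 0 := by
      rw [hee]
      simp only
      rw [Finset.sum_comm]
      refine Finset.sum_congr rfl fun a _ => Finset.sum_congr rfl fun w _ => ?_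
      refine if_congr ?_ rfl rfl
      rw [G.adj_comm]
      tauto
    rw [e1, hga]
    simp only
    rw [← Finset.sum_add_distrib]
    refine Finset.sum_congr rfl fun a _ => ?_
    rw [← Finset.sum_add_distrib]
    split_ifs with h
    · rw [dg_eq]
      refine Finset.sum_congr rfl fun w _ => ?_
      by_cases hw : w.val < k
      · have : ¬ k ≤ w.val := by omega
        simp [h, hw, this]
      · have : k ≤ w.val := by omega
        simp [h, hw, this]
    · symm
      refine Finset.sum_eq_zero fun w _ => ?_
      simp [h]
  have hA' : al G + ee G = al G' + ee G' := by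
    rw [← hA, ← hA]
    exact Finset.sum_congr rfl fun a _ => by rw [hdeg]
  have hB' : ga G + ee G = ga G' + ee G' := by
    rw [← hB, ← hB]
    exact Finset.sum_congr rfl fun a _ => by rw [hdeg]
  have hal' : al G' ≤ al G := by
    rw [hal]
    simp only
    refine Finset.sum_le_sum fun a _ => Finset.sum_le_sum fun w _ => ?_
    split_ifs with g1 g2
    · exact le_rfl
    · exact absurd ⟨g1.1, g1.2.1, h1 a w g1.1 g1.2.1 (G'.ne_of_adj g1.2.2).symm⟩ g2
    · exact Nat.zero_le _
    · exact le_rfl
  have hga1 : ga G ≤ #{β : Fin n | b ≤ β.val ∧ k ≤ (p β).val} := by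
    rw [Finset.card_filter, hga]
    simp only
    refine Finset.sum_le_sum fun a _ => ?_
    calc (∑ w : Fin n, if b ≤ a.val ∧ k ≤ w.val ∧ G.Adj a w then 1 else 0)
        ≤ ∑ w : Fin n, if w = p a then (if b ≤ a.val ∧ k ≤ (p a).val then 1 else 0) else 0 := by
          refine Finset.sum_le_sum fun w _ => ?_
          split_ifs with g1 g2 g3 g4
          · exact le_rfl
          · subst g2
            exact absurd ⟨g1.1, g1.2.1⟩ g3
          · exact absurd (h2 a w g1.1 g1.2.1 g1.2.2) g2
          · exact Nat.zero_le _
          · exact le_rfl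
          · exact le_rfl
      _ = _ := by simp
  have hga2 : #{β : Fin n | b ≤ β.val ∧ k ≤ (q β).val} ≤ ga G' := by
    rw [Finset.card_filter, hga]
    simp only
    refine Finset.sum_le_sum fun a _ => ?_
    calc (if b ≤ a.val ∧ k ≤ (q a).val then 1 else 0)
        ≤ (if b ≤ a.val ∧ k ≤ (q a).val ∧ G'.Adj a (q a) then 1 else 0) := by
          simp [h3 a]
      _ ≤ _ := Finset.single_le_sum
          (f := fun w : Fin n => if b ≤ a.val ∧ k ≤ w.val ∧ G'.Adj a w then 1 else 0)
          (fun _ _ => Nat.zero_le _) (Finset.mem_univ (q a))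
  omega

/-- a set with an even number of elements has a fixed point free involution -/
lemma exInv {α : Type*} (m : ℕ) : ∀ S : Finset α, #S = 2 * m →
    ∃ σ : α → α, ∀ x ∈ S, σ x ∈ S ∧ σ x ≠ x ∧ σ (σ x) = x := by
  induction m with
  | zero =>
    intro S hS
    have : S = ∅ := by
      rw [← Finset.card_eq_zero]; omega
    subst this
    exact ⟨id, by simp⟩
  | succ m ih =>
    intro S hS
    obtain ⟨a, ha⟩ : S.Nonempty := by
      rw [← Finset.card_pos]; omega
    have h1 : #(S.erase a) = 2 * m + 1 := by
      rw [Finset.card_erase_of_mem ha]; omega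
    obtain ⟨b, hb⟩ : (S.erase a).Nonempty := by
      rw [← Finset.card_pos]; omega
    have h2 : #((S.erase a).erase b) = 2 * m := by
      rw [Finset.card_erase_of_mem hb]; omega
    obtain ⟨σ, hσ⟩ := ih _ h2
    rw [Finset.mem_erase] at hb
    refine ⟨fun x => if x = a then b else if x = b then a else σ x, fun x hx => ?_⟩
    by_cases hxa : x = a
    · subst hxa
      simp [hb.1, hb.2]
    · by_cases hxb : x = b
      · subst hxb
        simp [hb.1, ha, hb.1.symm]
      · have hx' : x ∈ (S.erase a).erase b := by simp [hxa, hxb, hx]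
        obtain ⟨g1, g2, g3⟩ := hσ x hx'
        simp only [Finset.mem_erase] at g1
        simp [hxa, hxb, g1.1, g1.2.1, g1.2.2, g2, g3]

/-- the auxiliary graph of removed edges -/
lemma exH (k b : ℕ) (hb : b ≤ n) (U : Finset (Fin n)) (hU : ∀ u ∈ U, k ≤ u.val ∧ u.val < b)
    (hex : ∀ z : Fin n, b = k + 2 → z.val = k + 1 → U ≠ {z}) :
    ∃ H : Fin n → Fin n → Prop, (∀ x y, H x y → H y x) ∧ (∀ x, ¬ H x x) ∧
      (∀ x y, H x y → k ≤ x.val ∧ x.val < b ∧ (x ∈ U ∨ y ∈ U)) ∧
      ∀ x y : Fin n, k ≤ x.val → x.val ≤ y.val → y.val < b →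
        #{w | H x w} + (if y ∈ U then 1 else 0) ≤ #{w | H y w} + (if x ∈ U then 1 else 0) := by
  -- the general pattern: a matching on `S`
  have pat1 : ∀ S : Finset (Fin n), Even #S → (∀ x ∈ S, k ≤ x.val ∧ x.val < b) →
      ∃ H : Fin n → Fin n → Prop, (∀ x y, H x y → H y x) ∧ (∀ x, ¬ H x x) ∧
      (∀ x y, H x y → x ∈ S ∧ y ∈ S) ∧ ∀ x, #{w | H x w} = if x ∈ S then 1 else 0 := by
    intro S hS hS'
    obtain ⟨m, hm⟩ := hS
    obtain ⟨σ, hσ⟩ := exInv m S (by omega)
    refine ⟨fun x y => x ∈ S ∧ y ∈ S ∧ σ x = y, ?_, ?_, ?_, ?_⟩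
    · rintro x y ⟨h1, h2, rfl⟩
      exact ⟨h2, h1, (hσ x h1).2.2⟩
    · rintro x ⟨h1, -, h3⟩
      exact (hσ x h1).2.1 h3
    · rintro x y ⟨h1, h2, -⟩
      exact ⟨h1, h2⟩
    · intro x
      split_ifs with h
      · rw [Finset.card_eq_one]
        refine ⟨σ x, ?_⟩
        ext w
        simp only [Finset.mem_filter, Finset.mem_univ, true_and, Finset.mem_singleton]
        constructor
        · rintro ⟨-, -, h3⟩
          exact h3.symm
        · rintro rfl
          exact ⟨h, (hσ x h).1, rfl⟩
      · rw [Finset.card_eq_zero, Finset.eq_empty_iff_forall_notMem]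
        intro w hw
        simp only [Finset.mem_filter, Finset.mem_univ, true_and] at hw
        exact h hw.1
  -- a matching on `S` and a path of length two with centre `z`
  have pat2 : ∀ (S : Finset (Fin n)) (z u v : Fin n), Even #S → z ≠ u → z ≠ v → u ≠ v →
      z ∉ S → u ∉ S → v ∉ S →
      ∃ H : Fin n → Fin n → Prop, (∀ x y, H x y → H y x) ∧ (∀ x, ¬ H x x) ∧
      (∀ x y, H x y → (x ∈ S ∧ y ∈ S) ∨ (x = z ∧ (y = u ∨ y = v)) ∨ (y = z ∧ (x = u ∨ x = v))) ∧
      ∀ x, #{w | H x w} = if x = z then 2 else if x = u ∨ x = v ∨ x ∈ S then 1 else 0 := by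
    intro S z u v hS hzu hzv huv hz hu hv
    obtain ⟨m, hm⟩ := hS
    obtain ⟨σ, hσ⟩ := exInv m S (by omega)
    refine ⟨fun x y => (x ∈ S ∧ y ∈ S ∧ σ x = y) ∨ (x = z ∧ (y = u ∨ y = v)) ∨
      (y = z ∧ (x = u ∨ x = v)), ?_, ?_, ?_, ?_⟩
    · rintro x y (⟨h1, h2, rfl⟩ | h | h)
      · exact Or.inl ⟨h2, h1, (hσ x h1).2.2⟩
      · exact Or.inr (Or.inr h)
      · exact Or.inr (Or.inl h)
    · rintro x (⟨h1, -, h3⟩ | ⟨rfl, h | h⟩ | ⟨rfl, h | h⟩)
      · exact (hσ x h1).2.1 h3
      · exact hzu h
      · exact hzv h
      · exact hzu h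
      · exact hzv h
    · rintro x y (⟨h1, h2, -⟩ | h | h)
      · exact Or.inl ⟨h1, h2⟩
      · exact Or.inr (Or.inl h)
      · exact Or.inr (Or.inr h)
    · intro x
      by_cases hxz : x = z
      · subst hxz
        rw [if_pos rfl]
        rw [Finset.card_eq_two]
        refine ⟨u, v, huv, ?_⟩
        ext w
        simp [hz, hzu, hzv]
      · rw [if_neg hxz]
        by_cases hxu : x = u
        · subst hxu
          rw [if_pos (Or.inl rfl), Finset.card_eq_one]
          refine ⟨z, ?_⟩
          ext w
          simp [hu, hzu.symm]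
        · by_cases hxv : x = v
          · subst hxv
            rw [if_pos (Or.inr (Or.inl rfl)), Finset.card_eq_one]
            refine ⟨z, ?_⟩
            ext w
            simp [hv, hzv.symm]
          · by_cases hxS : x ∈ S
            · rw [if_pos (Or.inr (Or.inr hxS)), Finset.card_eq_one]
              refine ⟨σ x, ?_⟩
              ext w
              simp only [Finset.mem_filter, Finset.mem_univ, true_and, Finset.mem_singleton]
              constructor
              · rintro (⟨-, -, h3⟩ | ⟨h, -⟩ | ⟨-, h | h⟩)
                · exact h3.symm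
                · exact absurd h hxz
                · exact absurd h hxu
                · exact absurd h hxv
              · rintro rfl
                exact Or.inl ⟨hxS, (hσ x hxS).1, rfl⟩
            · rw [if_neg (by tauto), Finset.card_eq_zero, Finset.eq_empty_iff_forall_notMem]
              intro w hw
              simp only [Finset.mem_filter, Finset.mem_univ, true_and] at hw
              rcases hw with (⟨h1, -⟩ | ⟨h, -⟩ | ⟨-, h | h⟩)
              · exact hxS h1
              · exact hxz h
              · exact hxu h
              · exact hxv h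
  by_cases hkb : b ≤ k
  · refine ⟨fun _ _ => False, by simp, by simp, by simp, ?_⟩
    intro x y h1 h2 h3
    omega
  push Not at hkb
  obtain ⟨z, hz⟩ : ∃ z : Fin n, z.val + 1 = b := ⟨⟨b - 1, by omega⟩, by simp; omega⟩
  by_cases hev : Even #U
  · obtain ⟨H, g1, g2, g3, g4⟩ := pat1 U hev hU
    refine ⟨H, g1, g2, fun x y h => ⟨(hU x (g3 x y h).1).1, (hU x (g3 x y h).1).2,
      Or.inl (g3 x y h).1⟩, fun x y _ _ _ => ?_⟩
    rw [g4, g4]
    omega
  by_cases hzU : z ∈ U
  · by_cases h3 : 3 ≤ #U
    · -- two further elements of U
      have c1 : #(U.erase z) = #U - 1 := Finset.card_erase_of_mem hzU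
      obtain ⟨u, hu⟩ : (U.erase z).Nonempty := by
        rw [← Finset.card_pos]; omega
      have c2 : #((U.erase z).erase u) = #U - 2 := by
        rw [Finset.card_erase_of_mem hu]; omega
      obtain ⟨v, hv⟩ : ((U.erase z).erase u).Nonempty := by
        rw [← Finset.card_pos]; omega
      have c3 : #(((U.erase z).erase u).erase v) = #U - 3 := by
        rw [Finset.card_erase_of_mem hv]; omega
      have hev3 : Even #(((U.erase z).erase u).erase v) := by
        rw [c3]
        rw [Nat.not_even_iff_odd] at hev
        obtain ⟨t, ht⟩ := hev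
        exact ⟨t - 1, by omega⟩
      simp only [Finset.mem_erase] at hu hv
      obtain ⟨H, g1, g2, g3, g4⟩ := pat2 (((U.erase z).erase u).erase v) z u v hev3
        hu.1.symm hv.2.1.symm hv.1.symm (by simp) (by simp) (by simp)
      refine ⟨H, g1, g2, ?_, ?_⟩
      · intro x y h
        rcases g3 x y h with ⟨h1, -⟩ | ⟨rfl, h1⟩ | ⟨rfl, h1⟩
        · simp only [Finset.mem_erase] at h1
          exact ⟨(hU x h1.2.2.2).1, (hU x h1.2.2.2).2, Or.inl h1.2.2.2⟩
        · exact ⟨(hU x hzU).1, (hU x hzU).2, Or.inl hzU⟩
        · rcases h1 with rfl | rfl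
          · exact ⟨(hU x hu.2).1, (hU x hu.2).2, Or.inl hu.2⟩
          · exact ⟨(hU x hv.2.2).1, (hU x hv.2.2).2, Or.inl hv.2.2⟩
      · intro x y hx hxy hy
        rw [g4, g4]
        have key : ∀ x, x ≠ z → (if x = z then 2 else if x = u ∨ x = v ∨
            x ∈ (((U.erase z).erase u).erase v) then 1 else 0) = if x ∈ U then 1 else 0 := by
          intro x hxz
          rw [if_neg hxz]
          refine if_congr ?_ rfl rfl
          simp only [Finset.mem_erase]
          constructor
          · rintro (rfl | rfl | h)
            · exact hu.2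
            · exact hv.2.2
            · exact h.2.2.2
          · intro h
            by_cases h1 : x = u
            · exact Or.inl h1
            · by_cases h2 : x = v
              · exact Or.inr (Or.inl h2)
              · exact Or.inr (Or.inr ⟨h2, h1, hxz, h⟩)
        by_cases hxz : x = z
        · have : y = z := by
            apply Fin.ext
            have : x.val = z.val := by rw [hxz]
            omega
          rw [hxz, this]
        · rw [key x hxz]
          by_cases hyz : y = z
          · rw [hyz, if_pos rfl, if_pos hzU]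
            omega
          · rw [key y hyz]
            omega
    · have h1 : #U = 1 := by
        have : 0 < #U := Finset.card_pos.2 ⟨z, hzU⟩
        rw [Nat.not_even_iff_odd] at hev
        obtain ⟨t, ht⟩ := hev
        omega
      have hUz : U = {z} := by
        rw [Finset.card_eq_one] at h1
        obtain ⟨a, ha⟩ := h1
        rw [ha] at hzU ⊢
        rw [Finset.mem_singleton] at hzU
        rw [hzU]
      by_cases hb1 : b = k + 1
      · refine ⟨fun _ _ => False, by simp, by simp, by simp, ?_⟩
        intro x y h1 h2 h3
        have : x = y := Fin.ext (by omega)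
        rw [this]
      · have hb2 : b ≠ k + 2 := by
          intro h
          exact hex z h (by omega) hUz
        obtain ⟨u, hu⟩ : ∃ u : Fin n, u.val + 2 = b := ⟨⟨b - 2, by omega⟩, by simp; omega⟩
        obtain ⟨v, hv⟩ : ∃ v : Fin n, v.val + 3 = b := ⟨⟨b - 3, by omega⟩, by simp; omega⟩
        have hzu : z ≠ u := by intro h; rw [h] at hz; omega
        have hzv : z ≠ v := by intro h; rw [h] at hz; omega
        have huv : u ≠ v := by intro h; rw [h] at hu; omega
        obtain ⟨H, g1, g2, g3, g4⟩ := pat2 ∅ z u v (by simp) hzu hzv huv (by simp) (by simp)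
          (by simp)
        refine ⟨H, g1, g2, ?_, ?_⟩
        · intro x y h
          rcases g3 x y h with ⟨h1, -⟩ | ⟨rfl, h1⟩ | ⟨rfl, h1⟩
          · simp at h1
          · exact ⟨(hU x hzU).1, (hU x hzU).2, Or.inl hzU⟩
          · rcases h1 with rfl | rfl
            · exact ⟨by omega, by omega, Or.inr hzU⟩
            · exact ⟨by omega, by omega, Or.inr hzU⟩
        · intro x y hx hxy hy
          rw [g4, g4, hUz]
          simp only [Finset.mem_singleton, Finset.notMem_empty, or_false]
          have e1 : ∀ x : Fin n, x = z ↔ x.val + 1 = b :=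
            fun x => ⟨fun h => by rw [h]; exact hz, fun h => Fin.ext (by omega)⟩
          have e2 : ∀ x : Fin n, x = u ↔ x.val + 2 = b :=
            fun x => ⟨fun h => by rw [h]; exact hu, fun h => Fin.ext (by omega)⟩
          have e3 : ∀ x : Fin n, x = v ↔ x.val + 3 = b :=
            fun x => ⟨fun h => by rw [h]; exact hv, fun h => Fin.ext (by omega)⟩
          simp only [e1, e2, e3]
          split_ifs <;> omega
  · -- z not in U
    have hev' : Even #(insert z U) := by
      rw [Finset.card_insert_of_notMem hzU]
      rw [Nat.not_even_iff_odd] at hev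
      exact hev.add_one
    have hU' : ∀ x ∈ insert z U, k ≤ x.val ∧ x.val < b := by
      intro x hx
      rw [Finset.mem_insert] at hx
      rcases hx with rfl | hx
      · exact ⟨by omega, by omega⟩
      · exact hU x hx
    obtain ⟨H, g1, g2, g3, g4⟩ := pat1 (insert z U) hev' hU'
    refine ⟨H, g1, g2, fun x y h => ⟨(hU' x (g3 x y h).1).1, (hU' x (g3 x y h).1).2, ?_⟩,
      fun x y h1 h2 h3 => ?_⟩
    · obtain ⟨h1, h2⟩ := g3 x y h
      rw [Finset.mem_insert] at h1 h2
      rcases h1 with rfl | h1
      · rcases h2 with rfl | h2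
        · exact absurd h (g2 _)
        · exact Or.inr h2
      · exact Or.inl h1
    · rw [g4, g4]
      simp only [Finset.mem_insert]
      by_cases hxz : x = z
      · have : y = z := by
          apply Fin.ext
          have : x.val = z.val := by rw [hxz]
          omega
        rw [hxz, this]
      · by_cases hyz : y = z
        · subst hyz
          simp only [hxz, false_or, true_or, if_true, hzU, if_false]
          split_ifs <;> omega
        · simp only [hxz, hyz, false_or]
          omega

/-- The tight graph. -/
lemma exG (k b : ℕ) (hkb : k ≤ b) (hb : b ≤ n) (p : Fin n → Fin n) (hp : ∀ v, p (p v) = v)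
    (hne : ∀ v, p v ≠ v) (hm : ∃ a : Fin n, a.val < k ∧ b ≤ (p a).val)
    (hex : ∀ z : Fin n, b = k + 2 → z.val = k + 1 → b ≤ (p z).val →
      ∃ y : Fin n, y.val = k ∧ b ≤ (p y).val) :
    ∃ G : SimpleGraph (Fin n), (∀ v, G.Adj v (p v)) ∧
      (∀ a w : Fin n, a.val < k → w.val < b → w ≠ a → G.Adj a w) ∧
      (∀ β w : Fin n, b ≤ β.val → k ≤ w.val → G.Adj β w → w = p β) ∧
      ∀ x y : Fin n, x ≤ y → dg G y ≤ dg G x := by
  obtain ⟨H, g1, g2, g3, g4⟩ := exH k b hb
    (univ.filter fun u : Fin n => k ≤ u.val ∧ u.val < b ∧ b ≤ (p u).val)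
    (by
      intro u hu
      simp only [Finset.mem_filter, Finset.mem_univ, true_and] at hu
      exact ⟨hu.1, hu.2.1⟩)
    (by
      intro z hz1 hz2 hz3
      have hz : z ∈ (univ.filter fun u : Fin n => k ≤ u.val ∧ u.val < b ∧ b ≤ (p u).val) := by
        rw [hz3]; simp
      simp only [Finset.mem_filter, Finset.mem_univ, true_and] at hz
      obtain ⟨y, hy1, hy2⟩ := hex z hz1 hz2 hz.2.2
      have hy : y ∈ (univ.filter fun u : Fin n => k ≤ u.val ∧ u.val < b ∧ b ≤ (p u).val) := by
        simp only [Finset.mem_filter, Finset.mem_univ, true_and]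
        exact ⟨by omega, by omega, hy2⟩
      rw [hz3, Finset.mem_singleton] at hy
      rw [hy] at hy1
      omega)
  simp only [Finset.mem_filter, Finset.mem_univ, true_and] at g3 g4
  have g3' : ∀ x y, H x y → k ≤ x.val ∧ x.val < b ∧ k ≤ y.val ∧ y.val < b ∧ y ≠ p x := by
    intro x y h
    have h1 := g3 x y h
    have h2 := g3 y x (g1 x y h)
    refine ⟨h1.1, h1.2.1, h2.1, h2.2.1, ?_⟩
    rintro rfl
    rcases h1.2.2 with h3 | h3
    · omega
    · rw [hp] at h3
      omega
  -- the graph
  set C : Fin n → Fin n → Prop := fun u v => (u.val < b ∧ v.val < b ∧ (u.val < k ∨ v.val < k ∨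
    ¬ H u v)) ∨ (b ≤ v.val ∧ (u.val + 1 < k ∨ (u.val + 1 = k ∧ (p v).val < k))) ∨ p u = v with hC
  obtain ⟨G, hG⟩ : ∃ G : SimpleGraph (Fin n), ∀ u v, G.Adj u v ↔ u ≠ v ∧ (C u v ∨ C v u) :=
    ⟨{ Adj := fun u v => u ≠ v ∧ (C u v ∨ C v u)
       symm := ⟨fun u v h => ⟨h.1.symm, h.2.symm⟩⟩
       loopless := ⟨fun u h => h.1 rfl⟩ }, fun u v => Iff.rfl⟩
  -- neighbours
  have adjA : ∀ u v : Fin n, u.val + 1 < k → (G.Adj u v ↔ v ≠ u) := by
    intro u v hu
    rw [hG]
    constructor
    · exact fun h => h.1.symm
    · intro h
      refine ⟨h.symm, Or.inl ?_⟩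
      by_cases hv : v.val < b
      · exact Or.inl ⟨by omega, hv, Or.inl (by omega)⟩
      · exact Or.inr (Or.inl ⟨by omega, Or.inl hu⟩)
  have adjK : ∀ u v : Fin n, u.val + 1 = k → (G.Adj u v ↔ v ≠ u ∧ (v.val < b ∨ (p v).val < k)) := by
    intro u v hu
    rw [hG]
    constructor
    · rintro ⟨h1, (h2 | h2 | h2) | (h2 | h2 | h2)⟩
      · exact ⟨h1.symm, Or.inl h2.2.1⟩
      · exact ⟨h1.symm, Or.inr (by omega)⟩
      · refine ⟨h1.symm, Or.inr ?_⟩
        rw [← h2, hp]; omega
      · exact ⟨h1.symm, Or.inl h2.1⟩
      · omega
      · refine ⟨h1.symm, Or.inr ?_⟩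
        rw [h2]; omega
    · rintro ⟨h, h2⟩
      refine ⟨h.symm, Or.inl ?_⟩
      by_cases hv : v.val < b
      · exact Or.inl ⟨by omega, hv, Or.inl (by omega)⟩
      · exact Or.inr (Or.inl ⟨by omega, Or.inr ⟨hu, by omega⟩⟩)
  have adjR : ∀ u v : Fin n, k ≤ u.val → u.val < b →
      (G.Adj u v ↔ v ≠ u ∧ ((v.val < b ∧ ¬ H u v) ∨ (b ≤ v.val ∧ v = p u))) := by
    intro u v hu1 hu2
    rw [hG]
    constructor
    · rintro ⟨h1, (h2 | h2 | h2) | (h2 | h2 | h2)⟩
      · refine ⟨h1.symm, Or.inl ⟨h2.2.1, ?_⟩⟩
        rcases h2.2.2 with h3 | h3 | h3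
        · omega
        · intro h4
          have := g3' u v h4
          omega
        · exact h3
      · omega
      · refine ⟨h1.symm, ?_⟩
        by_cases hv : v.val < b
        · exact Or.inl ⟨hv, fun h4 => (g3' u v h4).2.2.2.2 h2.symm⟩
        · exact Or.inr ⟨by omega, h2.symm⟩
      · refine ⟨h1.symm, Or.inl ⟨h2.1, ?_⟩⟩
        rcases h2.2.2 with h3 | h3 | h3
        · intro h4
          have := g3' u v h4
          omega
        · omega
        · exact fun h4 => h3 (g1 _ _ h4)
      · omega
      · refine ⟨h1.symm, ?_⟩
        have h2' : v = p u := by rw [← h2, hp]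
        by_cases hv : v.val < b
        · exact Or.inl ⟨hv, fun h4 => (g3' u v h4).2.2.2.2 h2'⟩
        · exact Or.inr ⟨by omega, h2'⟩
    · rintro ⟨h, h2 | h2⟩
      · exact ⟨h.symm, Or.inl (Or.inl ⟨hu2, h2.1, Or.inr (Or.inr h2.2)⟩)⟩
      · exact ⟨h.symm, Or.inl (Or.inr (Or.inr h2.2.symm))⟩
  have adjB : ∀ u v : Fin n, b ≤ u.val →
      (G.Adj u v ↔ (v.val + 1 < k ∨ (v.val + 1 = k ∧ (p u).val < k)) ∨ (v = p u ∧ k ≤ (p u).val)) := by
    intro u v hu
    rw [hG]
    constructor
    · rintro ⟨h1, (h2 | h2 | h2) | (h2 | h2 | h2)⟩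
      · omega
      · omega
      · by_cases hv : k ≤ (p u).val
        · exact Or.inr ⟨h2.symm, hv⟩
        · left
          rw [← h2]
          omega
      · omega
      · exact Or.inl h2.2
      · have h2' : v = p u := by rw [← h2, hp]
        by_cases hv : k ≤ (p u).val
        · exact Or.inr ⟨h2', hv⟩
        · left
          rw [h2']
          omega
    · rintro (h | h)
      · refine ⟨?_, Or.inr (Or.inr (Or.inl ⟨hu, h⟩))⟩
        intro h3
        rw [h3] at hu
        omega
      · exact ⟨fun h3 => hne u (h.1.symm.trans h3.symm), Or.inl (Or.inr (Or.inr h.1.symm))⟩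
  refine ⟨G, ?_, ?_, ?_, ?_⟩
  · intro v
    rw [hG]
    exact ⟨(hne v).symm, Or.inl (Or.inr (Or.inr rfl))⟩
  · intro a w ha hw hwa
    rw [hG]
    exact ⟨hwa.symm, Or.inl (Or.inl ⟨by omega, hw, Or.inl ha⟩)⟩
  · intro β w hβ hw h
    rw [adjB β w hβ] at h
    rcases h with h | h
    · omega
    · exact h.1
  · -- degrees
    have cA : ∀ m : ℕ, m ≤ n → (∑ w : Fin n, if w.val < m then 1 else 0) = m := by
      intro m hm
      rw [← Finset.card_filter]
      have : (univ.filter fun w : Fin n => w.val < m) = (univ : Finset (Fin m)).map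
          (Fin.castLEEmb hm) := by
        ext w
        simp only [Finset.mem_filter, Finset.mem_univ, true_and, Finset.mem_map,
          Fin.castLEEmb_apply]
        constructor
        · intro h
          exact ⟨⟨w.val, h⟩, Fin.ext rfl⟩
        · rintro ⟨a, rfl⟩
          exact a.2
      rw [this, Finset.card_map]
      simp
    have dB : ∀ u : Fin n, b ≤ u.val → dg G u = k := by
      intro u hu
      rw [dg_eq]
      have hk : 0 < k := by
        obtain ⟨a, ha, -⟩ := hm; omega
      by_cases hpu : k ≤ (p u).val
      · have e : ∀ w : Fin n, (if G.Adj u w then 1 else 0) =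
            (if w.val < k - 1 then 1 else 0) + (if w = p u then 1 else 0) := by
          intro w
          by_cases hw : w = p u
          · subst hw
            have h1 : G.Adj u (p u) := (adjB u _ hu).2 (Or.inr ⟨rfl, hpu⟩)
            have h2 : ¬ (p u).val < k - 1 := by omega
            simp [h1, h2]
          · have : G.Adj u w ↔ w.val < k - 1 := by
              rw [adjB u w hu]
              constructor
              · rintro (h | h)
                · omega
                · exact absurd h.1 hw
              · intro h
                exact Or.inl (Or.inl (by omega))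
            simp [this, hw]
        rw [Finset.sum_congr rfl fun w _ => e w, Finset.sum_add_distrib, cA (k - 1) (by omega)]
        simp
        omega
      · have e : ∀ w : Fin n, (if G.Adj u w then 1 else 0) =
            (if w.val < k then 1 else 0) := by
          intro w
          refine if_congr ?_ rfl rfl
          rw [adjB u w hu]
          constructor
          · rintro (h | h)
            · omega
            · omega
          · intro h
            left
            omega
        rw [Finset.sum_congr rfl fun w _ => e w, cA k (by omega)]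
    have dR : ∀ u : Fin n, k ≤ u.val → u.val < b → dg G u + #{w | H u w} + 1 =
        b + if b ≤ (p u).val then 1 else 0 := by
      intro u hu1 hu2
      rw [dg_eq, Finset.card_filter]
      have e : ∀ w : Fin n, (if G.Adj u w then 1 else 0) + (if H u w then 1 else 0) +
            (if w = u then 1 else 0) =
            (if w.val < b then 1 else 0) + (if w = p u then (if b ≤ (p u).val then 1 else 0)
              else 0) := by
        intro w
        by_cases hwu : w = u
        · subst hwu
          have h1 : ¬ H w w := g2 w
          have h2 : w ≠ p w := (hne w).symm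
          simp [h1, h2, hu2]
        · by_cases hwb : w.val < b
          · by_cases hH : H u w
            · have h1 : ¬ G.Adj u w := by
                rw [adjR u w hu1 hu2]
                rintro ⟨-, h | h⟩
                · exact h.2 hH
                · omega
              have h2 := (g3' u w hH).2.2.2.2
              simp [h1, h2, hH, hwb, hwu]
            · have h1 : G.Adj u w := (adjR u w hu1 hu2).2 ⟨hwu, Or.inl ⟨hwb, hH⟩⟩
              by_cases h3 : w = p u
              · have h4 : ¬ b ≤ (p u).val := by rw [← h3]; omega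
                simp [h1, hH, hwu, hwb, h4]
              · simp [h1, hH, hwu, hwb, h3]
          · have hH : ¬ H u w := fun h => hwb (g3' u w h).2.2.2.1
            by_cases h3 : w = p u
            · have h4 : b ≤ (p u).val := by rw [← h3]; omega
              have h1 : G.Adj u w := (adjR u w hu1 hu2).2 ⟨hwu, Or.inr ⟨by omega, h3⟩⟩
              rw [if_pos h1, if_neg hH, if_neg hwu, if_neg hwb, if_pos h3, if_pos h4]
            · have h1 : ¬ G.Adj u w := by
                rw [adjR u w hu1 hu2]
                rintro ⟨-, h | h⟩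
                · exact hwb h.1
                · exact h3 h.2
              simp [h1, hH, hwu, hwb, h3]
      have := Finset.sum_congr (rfl : (univ : Finset (Fin n)) = univ) fun w _ => e w
      rw [Finset.sum_add_distrib, Finset.sum_add_distrib, Finset.sum_add_distrib, cA b hb] at this
      simpa using this
    have dK : ∀ u : Fin n, u.val + 1 = k → b ≤ dg G u := by
      intro u hu
      rw [dg_eq]
      obtain ⟨a, ha1, ha2⟩ := hm
      have e : ∀ w : Fin n, (if w.val < b then 1 else 0) + (if w = p a then 1 else 0) ≤
          (if G.Adj u w then 1 else 0) + (if w = u then 1 else 0) := by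
        intro w
        by_cases hwu : w = u
        · subst hwu
          have h1 : w ≠ p a := by intro h; rw [← h] at ha2; omega
          have h2 : w.val < b := by omega
          simp [h1, h2]
        · by_cases hwa : w = p a
          · have h1 : G.Adj u w := by
              rw [adjK u w hu]
              refine ⟨hwu, Or.inr ?_⟩
              rw [hwa, hp]; exact ha1
            have h2 : ¬ w.val < b := by rw [hwa]; omega
            rw [if_neg h2, if_pos hwa, if_pos h1]
            omega
          · by_cases hwb : w.val < b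
            · have h1 : G.Adj u w := (adjK u w hu).2 ⟨hwu, Or.inl hwb⟩
              simp [h1, hwb, hwa]
            · simp [hwb, hwa]
      have := Finset.sum_le_sum fun (w : Fin n) (_ : w ∈ (univ : Finset (Fin n))) => e w
      rw [Finset.sum_add_distrib, Finset.sum_add_distrib, cA b hb] at this
      simpa using this
    have dA : ∀ u v : Fin n, u.val + 1 < k → dg G v ≤ dg G u := by
      intro u v hu
      have h1 : dg G u + 1 = n := by
        rw [dg_eq]
        have e : ∀ w : Fin n, (if G.Adj u w then 1 else 0) + (if w = u then 1 else 0) = 1 := by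
          intro w
          by_cases hwu : w = u
          · subst hwu
            simp
          · have : G.Adj u w := (adjA u w hu).2 hwu
            simp [this, hwu]
        have := Finset.sum_congr (rfl : (univ : Finset (Fin n)) = univ) fun w _ => e w
        rw [Finset.sum_add_distrib] at this
        simpa using this
      have h2 : dg G v + 1 ≤ n := by
        rw [dg_eq]
        have e : ∀ w : Fin n, (if G.Adj v w then 1 else 0) + (if w = v then 1 else 0) ≤ 1 := by
          intro w
          by_cases hwu : w = v
          · subst hwu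
            simp
          · split_ifs <;> omega
        have := Finset.sum_le_sum fun (w : Fin n) (_ : w ∈ (univ : Finset (Fin n))) => e w
        rw [Finset.sum_add_distrib] at this
        simpa using this
      omega
    intro x y hxy
    have hxy' : x.val ≤ y.val := hxy
    rcases Nat.lt_trichotomy (x.val + 1) k with hx | hx | hx
    · exact dA x y hx
    · by_cases hy : y.val < b
      · by_cases hyx : x = y
        · rw [hyx]
        · have : x.val ≠ y.val := fun h => hyx (Fin.ext h)
          have h1 := dR y (by omega) hy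
          have h2 := dK x hx
          split_ifs at h1 <;> omega
      · rw [dB y (by omega)]
        have := dK x hx
        omega
    · by_cases hxb : x.val < b
      · have h1 := dR x (by omega) hxb
        by_cases hy : y.val < b
        · have h2 := dR y (by omega) hy
          have h3 := g4 x y (by omega) hxy' hy
          have e1 : (k ≤ y.val ∧ y.val < b ∧ b ≤ (p y).val) ↔ b ≤ (p y).val :=
            ⟨fun h => h.2.2, fun h => ⟨by omega, hy, h⟩⟩
          have e2 : (k ≤ x.val ∧ x.val < b ∧ b ≤ (p x).val) ↔ b ≤ (p x).val :=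
            ⟨fun h => h.2.2, fun h => ⟨by omega, hxb, h⟩⟩
          rw [if_congr e1 rfl rfl, if_congr e2 rfl rfl] at h3
          omega
        · rw [dB y (by omega)]
          -- all vertices below k are neighbours of x
          rw [dg_eq]
          calc k = ∑ w : Fin n, (if w.val < k then 1 else 0) := (cA k (by omega)).symm
            _ ≤ _ := by
              refine Finset.sum_le_sum fun w _ => ?_
              by_cases hw : w.val < k
              · have : G.Adj x w := by
                  rw [adjR x w (by omega) hxb]
                  refine ⟨?_, Or.inl ⟨by omega, fun h => ?_⟩⟩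
                  · intro h; rw [h] at hw; omega
                  · have := (g3' x w h).2.2.1
                    omega
                rw [if_pos this]
                split_ifs <;> omega
              · simp [hw]
      · rw [dB y (by omega), dB x (by omega)]

/-- the main step -/
lemma main_step (p q : Fin n → Fin n) (hp : ∀ v, p (p v) = v) (hq : ∀ v, q (q v) = v)
    (hpn : ∀ v, p v ≠ v) (hqn : ∀ v, q v ≠ v) (i : Fin n) (hi : ∀ j : Fin n, j < i → p j = q j)
    (hlt : q i < p i) :
    ∃ G : SimpleGraph (Fin n), (∀ v, G.Adj v (p v)) ∧ (∀ x y : Fin n, x ≤ y → dg G y ≤ dg G x) ∧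
      ∀ G' : SimpleGraph (Fin n), (∀ v, dg G v = dg G' v) → ¬ ∀ v, G'.Adj v (q v) := by
  have hlt' : (q i).val < (p i).val := hlt
  have hiq : i.val < (q i).val := by
    by_contra h
    have h1 : (q i).val ≠ i.val := fun h2 => hqn i (Fin.ext h2)
    have h2 : q i < i := by
      show (q i).val < i.val
      omega
    have h3 := hi _ h2
    rw [hq] at h3
    have h4 : p i = q i := by rw [← hp (q i), h3]
    rw [h4] at hlt
    exact lt_irrefl _ hlt
  -- general conclusion
  have gen : ∀ k : ℕ, k ≤ (p i).val → i.val < k →
      (∀ z : Fin n, (p i).val = k + 2 → z.val = k + 1 → (p i).val ≤ (p z).val →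
        ∃ y : Fin n, y.val = k ∧ (p i).val ≤ (p y).val) →
      (∀ j : Fin n, i < j → j.val < k → p j < i ∧ p j = q j) →
      ∃ G : SimpleGraph (Fin n), (∀ v, G.Adj v (p v)) ∧
        (∀ x y : Fin n, x ≤ y → dg G y ≤ dg G x) ∧
        ∀ G' : SimpleGraph (Fin n), (∀ v, dg G v = dg G' v) → ¬ ∀ v, G'.Adj v (q v) := by
    intro k hk hik hex hj
    obtain ⟨G, h1, h2, h3, h4⟩ := exG k (p i).val hk (p i).2.le p hp hpn ⟨i, hik, le_rfl⟩ hex
    refine ⟨G, h1, h4, fun G' hG' hq' => ?_⟩
    have hc := compare G G' k (p i).val p q hG' h2 h3 hq'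
    have hss : (univ.filter fun β : Fin n => (p i).val ≤ β.val ∧ k ≤ (p β).val) ⊂
        (univ.filter fun β : Fin n => (p i).val ≤ β.val ∧ k ≤ (q β).val) := by
      rw [Finset.ssubset_iff_of_subset]
      · refine ⟨p i, ?_, ?_⟩
        · simp only [Finset.mem_filter, Finset.mem_univ, true_and, le_refl]
          by_contra hcon
          push Not at hcon
          rcases lt_trichotomy (q (p i)) i with h | h | h
          · have h5 := hi _ h
            rw [hq] at h5
            have h6 : q (p i) = i := by
              have := congrArg p h5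
              rw [hp, hp] at this
              exact this
            rw [h6] at h
            exact lt_irrefl _ h
          · have h6 : p i = q i := by rw [← hq (p i), h]
            rw [h6] at hlt
            exact lt_irrefl _ hlt
          · have h7 := hj _ h hcon
            have h8 : p i = q (q (p i)) := (hq _).symm
            rw [← h7.2] at h8
            have h9 : (p (q (p i))).val < i.val := h7.1
            rw [← h8] at h9
            omega
        · simp only [Finset.mem_filter, Finset.mem_univ, true_and, le_refl, hp]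
          omega
      · intro β hβ
        simp only [Finset.mem_filter, Finset.mem_univ, true_and] at hβ ⊢
        refine ⟨hβ.1, ?_⟩
        by_contra hcon
        push Not at hcon
        rcases lt_trichotomy (q β) i with h | h | h
        · have h5 := hi _ h
          rw [hq] at h5
          have h6 : p β = q β := by
            have := congrArg p h5
            rw [hp] at this
            exact this.symm
          rw [h6] at hβ
          omega
        · have h6 : β = q i := by rw [← h, hq]
          rw [h6] at hβ
          omega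
        · have h7 := hj _ h hcon
          have h8 : p (q β) = β := by rw [h7.2, hq]
          have h9 : (p (q β)).val < i.val := h7.1
          rw [h8] at h9
          omega
    exact absurd (Finset.card_lt_card hss) (not_lt.2 hc)
  by_cases hexc : ∃ y z : Fin n, y.val = i.val + 1 ∧ z.val = i.val + 2 ∧ (p i).val = i.val + 3 ∧
      (p i).val ≤ (p z).val ∧ ¬ (p i).val ≤ (p y).val
  · obtain ⟨y, z, hy, hz, hpi, hpz, hpy⟩ := hexc
    -- the partner of y is smaller than i
    have hpy' : p y < i := by
      show (p y).val < i.val
      have h1 : (p y).val ≠ i.val := by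
        intro h
        have : p y = i := Fin.ext h
        have h2 : y = p i := by rw [← this, hp]
        rw [← h2] at hpi
        omega
      have h2 : (p y).val ≠ y.val := fun h => hpn y (Fin.ext h)
      have h3 : (p y).val ≠ z.val := by
        intro h
        have : p y = z := Fin.ext h
        have h2 : p z = y := by rw [← this, hp]
        rw [h2] at hpz
        omega
      omega
    have hqy : p y = q y := by
      have h5 := hi _ hpy'
      rw [hp] at h5
      have := congrArg q h5
      rw [hq] at this
      exact this.symm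
    refine gen (i.val + 2) (by omega) (by omega) (by intro z h; omega) ?_
    intro j hj1 hj2
    have : j = y := Fin.ext (by
      have : i.val < j.val := hj1
      omega)
    rw [this]
    exact ⟨hpy', hqy⟩
  · refine gen (i.val + 1) (by omega) (by omega) ?_ ?_
    · intro z h1 h2 h3
      have hlt3 : i.val + 1 < n := by
        have := (p i).2
        omega
      refine ⟨⟨i.val + 1, hlt3⟩, rfl, ?_⟩
      by_contra hcon
      exact hexc ⟨⟨i.val + 1, hlt3⟩, z, rfl, by omega, by omega, h3, hcon⟩
    · intro j h1 h2
      have : i.val < j.val := h1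
      omega

end Pool.Agent.X239.RZ
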